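import Pool.Agent.Helper73.XL.KW
import Pool.Agent.Helper22.XL.Defs
import Pool.Agent.Helper99.WC.Sup

/-!
# XL (MP_fb29e9_nt), blocks A2, A3, A4: the means of the functions of the main sum are the means over independent phases
-/

open MeasureTheory Real Set Filter Topology

set_option autoImplicit false

namespace Pool.Agent.Helper73.XL

open Pool.Agent.Helper22.AE
open Pool.Agent.Helper93.EX (Mx ak prim sn fJ)
open Pool.Agent.Helper99.WC
open Pool.Agent.Helper22.XL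

/-- the random sum on the torus, with the sign -/
noncomputable def Psi1 (H : ℝ → ℝ) (N : ℕ) (y : UnitAddTorus {k // k ∈ prim N}) (c : UnitAddCircle × UnitAddCircle) : ℝ :=
  ∑ k : {k // k ∈ prim N}, ak H k.1 * FJ ((N - 1) / sn k.1) (y k + (k.1.1 • c.1 + k.1.2 • c.2))

theorem Psi1_cont (H : ℝ → ℝ) (N : ℕ) : Continuous (fun p : UnitAddTorus {k // k ∈ prim N} × (UnitAddCircle × UnitAddCircle) => Psi1 H N p.1 p.2) := by
  unfold Psi1
  refine continuous_finsetSum _ fun k _ => continuous_const.mul ((FJ_cont _).comp ?_)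
  exact ((continuous_apply k).comp continuous_fst).add
    (((continuous_zsmul k.1.1).comp (continuous_fst.comp continuous_snd)).add ((continuous_zsmul k.1.2).comp (continuous_snd.comp continuous_snd)))

theorem Zs_torus (H : ℝ → ℝ) (N : ℕ) (u : {k // k ∈ prim N} → ℝ) (c : ℝ × ℝ) :
    Zs H N u c = Psi1 H N (pt u) ((c.1 : UnitAddCircle), (c.2 : UnitAddCircle)) := by
  unfold Zs Psi1
  refine Finset.sum_congr rfl fun k _ => ?_
  congr 1
  rw [← FJ_coe]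
  congr 1
  unfold pt
  rw [AddCircle.coe_add, AddCircle.coe_add, ← zsmul_eq_mul, ← zsmul_eq_mul, AddCircle.coe_zsmul, AddCircle.coe_zsmul]

theorem Mx_eq (H : ℝ → ℝ) (N : ℕ) (R : ℝ) (c : ℝ × ℝ) : Mx H N R c = Zs H N (fun k => R * hh H N k) c := by
  unfold Mx Zs hh
  rw [← Finset.sum_coe_sort]

theorem Psi_abs (H : ℝ → ℝ) (N : ℕ) (y : UnitAddTorus {k // k ∈ prim N}) (c : UnitAddCircle × UnitAddCircle) :
    Psi H N y c = |Psi1 H N y c| := rfl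

theorem ZS_torus (H : ℝ → ℝ) (N : ℕ) (u : {k // k ∈ prim N} → ℝ) : ZS H N u = Phi H N (pt u) := by
  have hsurj : Function.Surjective (fun c : ℝ × ℝ => ((c.1 : UnitAddCircle), (c.2 : UnitAddCircle))) := by
    rintro ⟨a, b⟩
    obtain ⟨x, rfl⟩ := QuotientAddGroup.mk_surjective a
    obtain ⟨y, rfl⟩ := QuotientAddGroup.mk_surjective b
    exact ⟨(x, y), rfl⟩
  unfold ZS Phi
  rw [← hsurj.iSup_comp]
  exact iSup_congr fun c => by rw [Zs_torus, Psi_abs]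

/-- A2 -/
theorem kwF {H : ℝ → ℝ} (hL : LI H) (N : ℕ) {φ : ℝ → ℝ} (hφ : Continuous φ) : ∀ ε : ℝ, 0 < ε → ∃ X₀ : ℝ, 1 ≤ X₀ ∧ ∀ X : ℝ, X₀ ≤ X →
    |X⁻¹ * (∫ R in Icc X (2 * X), φ (Mx H N R (0, 0))) - mF N φ H| ≤ ε := by
  intro ε hε
  have hF : Continuous fun y : UnitAddTorus {k // k ∈ prim N} => φ (Psi1 H N y (((0 : ℝ) : UnitAddCircle), ((0 : ℝ) : UnitAddCircle))) :=
    hφ.comp ((Psi1_cont H N).comp (continuous_id.prodMk continuous_const))
  obtain ⟨X₀, h1, h2⟩ := kw (hh H N) (hL N) hF ε hε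
  refine ⟨X₀, h1, fun X hX => ?_⟩
  have h3 := h2 X hX
  have e1 : ∀ R : ℝ, Mx H N R (0, 0) = Psi1 H N (line (hh H N) R) (((0 : ℝ) : UnitAddCircle), ((0 : ℝ) : UnitAddCircle)) := fun R => by
    rw [Mx_eq, Zs_torus]
    rfl
  have e2 : mF N φ H = ∫ u in Icc (0 : {k // k ∈ prim N} → ℝ) 1,
      φ (Psi1 H N (fun i => (u i : UnitAddCircle)) (((0 : ℝ) : UnitAddCircle), ((0 : ℝ) : UnitAddCircle))) := by
    unfold mF
    simp only [Zs_torus]
    rfl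
  rw [e2]
  simp only [e1]
  exact h3

/-- A3 -/
theorem kwS {H : ℝ → ℝ} (hL : LI H) (N : ℕ) {φ : ℝ → ℝ} (hφ : Continuous φ) : ∀ ε : ℝ, 0 < ε → ∃ X₀ : ℝ, 1 ≤ X₀ ∧ ∀ X : ℝ, X₀ ≤ X →
    |X⁻¹ * (∫ R in Icc X (2 * X), φ (⨆ c : ℝ × ℝ, |Mx H N R c|)) - mS N φ H| ≤ ε := by
  intro ε hε
  obtain ⟨X₀, h1, h2⟩ := kw (hh H N) (hL N) (hφ.comp (Phi_cont H N)) ε hε
  refine ⟨X₀, h1, fun X hX => ?_⟩
  have h3 := h2 X hX
  have e2 : mS N φ H = ∫ u in Icc (0 : {k // k ∈ prim N} → ℝ) 1, φ (Phi H N (fun i => (u i : UnitAddCircle))) := by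
    unfold mS
    simp only [ZS_torus]
    rfl
  rw [e2]
  simp only [sup_torus]
  exact h3

/-- A4: facts on the random sum, for the bounds and the integrability -/
theorem zs_facts (H : ℝ → ℝ) (N : ℕ) : (Continuous fun u => Zs H N u (0, 0)) ∧ (Continuous fun u => ZS H N u) ∧
    (∀ u, BddAbove (range fun c : ℝ × ℝ => |Zs H N u c|)) ∧ (∃ B : ℝ, ∀ u, ZS H N u ≤ B) ∧ ∀ u, 0 ≤ ZS H N u ∧ |Zs H N u (0, 0)| ≤ ZS H N u := by
  obtain ⟨B, hB⟩ : ∃ B : ℝ, ∀ (u : {k // k ∈ prim N} → ℝ) (c : ℝ × ℝ), |Zs H N u c| ≤ B := by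
    have h2 := (isCompact_univ (X := UnitAddTorus {k // k ∈ prim N} × (UnitAddCircle × UnitAddCircle))).image (Psi1_cont H N).abs
    obtain ⟨B, hB⟩ := h2.bddAbove
    refine ⟨B, fun u c => ?_⟩
    rw [Zs_torus]
    exact hB ⟨(pt u, _), mem_univ _, rfl⟩
  have hbdd : ∀ u, BddAbove (range fun c : ℝ × ℝ => |Zs H N u c|) := fun u => ⟨B, by rintro _ ⟨c, rfl⟩; exact hB u c⟩
  refine ⟨?_, ?_, hbdd, ⟨B, fun u => ciSup_le fun c => hB u c⟩, fun u => ?_⟩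
  · simp only [Zs_torus]
    exact (Psi1_cont H N).comp (pt_cont.prodMk continuous_const)
  · simp only [ZS_torus]
    exact (Phi_cont H N).comp pt_cont
  · have h := le_ciSup (hbdd u) (0, 0)
    exact ⟨(abs_nonneg _).trans h, h⟩

end Pool.Agent.Helper73.XL
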