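import Pool.Agent.Helper73.XL.Weyl

/-!
# XL (MP_fb29e9_nt), block A1: Kronecker-Weyl, the form of the stub
-/

open MeasureTheory Real Set Filter Topology

set_option autoImplicit false

namespace Pool.Agent.Helper73.XL

theorem cube_eq (ι : Type*) [Fintype ι] : cube ι = volume.restrict (Icc (0 : ι → ℝ) 1) := by
  rw [cube, ← Measure.restrict_pi_pi, ← Set.pi_univ_Icc]
  rfl

theorem linInd {ι : Type*} [Fintype ι] {h : ι → ℝ} (hi : ∀ s : ι → ℤ, ∑ i, (s i : ℝ) * h i = 0 → s = 0) : LinearIndependent ℚ h := by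
  rw [← LinearIndependent.iff_fractionRing ℤ ℚ, Fintype.linearIndependent_iff]
  intro g hg i
  have h1 := hi g (by
    rw [← hg]
    refine Finset.sum_congr rfl fun i _ => ?_
    rw [zsmul_eq_mul])
  exact congrFun h1 i

/-- A1 (Kronecker-Weyl) -/
theorem kw {ι : Type} [Fintype ι] (h : ι → ℝ) (hi : ∀ s : ι → ℤ, ∑ i, (s i : ℝ) * h i = 0 → s = 0) {F : UnitAddTorus ι → ℝ} (hF : Continuous F) :
    ∀ ε : ℝ, 0 < ε → ∃ X₀ : ℝ, 1 ≤ X₀ ∧ ∀ X : ℝ, X₀ ≤ X →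
      |X⁻¹ * (∫ R in Icc X (2 * X), F (Pool.Agent.Helper99.WC.line h R)) - ∫ u in Icc (0 : ι → ℝ) 1, F (fun i => (u i : UnitAddCircle))| ≤ ε := by
  intro ε hε
  have h1 := mean_weyl_real (linInd hi) hF
  rw [cube_eq] at h1
  obtain ⟨X₁, hX₁⟩ := eventually_atTop.1 ((Metric.tendsto_nhds.1 h1) ε hε)
  exact ⟨max 1 X₁, le_max_left _ _, fun X hX => (hX₁ X ((le_max_right _ _).trans hX)).le⟩

end Pool.Agent.Helper73.XL
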