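import Pool.Agent.Helper99.WC.Torus

/-!
# XL (MP_fb29e9_nt), block A: Kronecker-Weyl along a line with frequencies independent over `ℚ`
-/

open MeasureTheory Real Set Filter Topology

set_option autoImplicit false

namespace Pool.Agent.Helper73.XL

open Pool.Agent.Helper99.WC

/-- the means of a nontrivial character converge to zero -/
theorem mean_exp_zero {a : ℝ} (ha : a ≠ 0) :
    Tendsto (meanC fun R => Complex.exp (2 * π * Complex.I * ((R * a : ℝ) : ℂ))) atTop (𝓝 0) := by
  rw [tendsto_zero_iff_norm_tendsto_zero]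
  have hc : (2 * π * Complex.I * (a : ℂ)) ≠ 0 := by
    have : (a : ℂ) ≠ 0 := by exact_mod_cast ha
    have h3 : (π : ℂ) ≠ 0 := by exact_mod_cast Real.pi_ne_zero
    simp [this, h3, Complex.I_ne_zero]
  have h1 : ∀ X : ℝ, 1 ≤ X → ‖meanC (fun R => Complex.exp (2 * π * Complex.I * ((R * a : ℝ) : ℂ))) X‖ ≤
      X⁻¹ * (2 / ‖(2 * π * Complex.I * (a : ℂ))‖) := by
    intro X hX
    have hX0 : 0 < X := by linarith
    unfold meanC
    rw [norm_mul, Complex.norm_real, Real.norm_eq_abs, abs_of_pos (inv_pos.2 hX0)]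
    refine mul_le_mul_of_nonneg_left ?_ (inv_nonneg.2 hX0.le)
    rw [integral_Icc_eq_integral_Ioc, ← intervalIntegral.integral_of_le (by linarith)]
    have e1 : (fun R : ℝ => Complex.exp (2 * π * Complex.I * ((R * a : ℝ) : ℂ))) =
        fun R : ℝ => Complex.exp ((2 * π * Complex.I * (a : ℂ)) * R) := by
      funext R
      congr 1
      push_cast
      ring
    rw [e1, integral_exp_mul_complex hc, norm_div]
    refine div_le_div_of_nonneg_right ?_ (norm_nonneg _)
    have h2 : ∀ R : ℝ, ‖Complex.exp ((2 * π * Complex.I * (a : ℂ)) * R)‖ = 1 := by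
      intro R
      have : (2 * π * Complex.I * (a : ℂ)) * R = ((2 * π * a * R : ℝ) : ℂ) * Complex.I := by push_cast; ring
      rw [this, Complex.norm_exp_ofReal_mul_I]
    refine (norm_sub_le _ _).trans ?_
    rw [h2, h2]
    norm_num
  refine squeeze_zero' (Eventually.of_forall fun X => norm_nonneg _) ((eventually_ge_atTop (1 : ℝ)).mono h1) ?_
  have := tendsto_inv_atTop_zero (𝕜 := ℝ)
  simpa using this.mul_const (2 / ‖(2 * π * Complex.I * (a : ℂ))‖)

/-- the means of a constant -/
theorem mean_const (z : ℂ) : Tendsto (meanC fun _ => z) atTop (𝓝 z) := by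
  refine tendsto_const_nhds.congr' ?_
  filter_upwards [eventually_ge_atTop (1 : ℝ)] with X hX
  have hX0 : 0 < X := by linarith
  unfold meanC
  rw [setIntegral_const, Real.volume_real_Icc_of_le (by linarith), Complex.real_smul]
  have : ((2 * X - X : ℝ) : ℂ) = (X : ℂ) := by push_cast; ring
  rw [this, Complex.ofReal_inv, ← mul_assoc, inv_mul_cancel₀ (by exact_mod_cast hX0.ne'), one_mul]

variable {ι : Type*} [Fintype ι]

/-- the uniform measure on the cube -/
noncomputable def cube (ι : Type*) [Fintype ι] : Measure (ι → ℝ) := Measure.pi fun _ => volume.restrict (Icc (0 : ℝ) 1)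

instance : IsProbabilityMeasure (volume.restrict (Icc (0 : ℝ) 1)) :=
  ⟨by rw [Measure.restrict_apply_univ, Real.volume_Icc]; norm_num⟩

instance : IsProbabilityMeasure (cube ι) := by unfold cube; infer_instance

/-- the point of the torus -/
noncomputable def pt (u : ι → ℝ) : UnitAddTorus ι := fun i => (u i : UnitAddCircle)

omit [Fintype ι] in
theorem pt_cont : Continuous (pt : (ι → ℝ) → UnitAddTorus ι) :=
  continuous_pi fun i => (AddCircle.continuous_mk' (1 : ℝ)).comp (continuous_apply i)

omit [Fintype ι] in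
theorem line_eq (h : ι → ℝ) (R : ℝ) : line h R = pt fun i => R * h i := rfl

theorem integral_exp_int {n : ℤ} (hn : n ≠ 0) :
    ∫ u : ℝ, Complex.exp (2 * π * Complex.I * ((n * u : ℝ) : ℂ)) ∂(volume.restrict (Icc (0 : ℝ) 1)) = 0 := by
  have hc : (2 * π * Complex.I * (n : ℂ)) ≠ 0 := by
    have : (n : ℂ) ≠ 0 := by exact_mod_cast hn
    have h3 : (π : ℂ) ≠ 0 := by exact_mod_cast Real.pi_ne_zero
    simp [this, h3, Complex.I_ne_zero]
  rw [integral_Icc_eq_integral_Ioc, ← intervalIntegral.integral_of_le zero_le_one]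
  have e1 : (fun u : ℝ => Complex.exp (2 * π * Complex.I * ((n * u : ℝ) : ℂ))) =
      fun u : ℝ => Complex.exp ((2 * π * Complex.I * (n : ℂ)) * u) := by
    funext u
    congr 1
    push_cast
    ring
  rw [e1, integral_exp_mul_complex hc]
  have e2 : Complex.exp ((2 * π * Complex.I * (n : ℂ)) * ((1 : ℝ) : ℂ)) = 1 := by
    rw [Complex.ofReal_one, mul_one, show (2 * π * Complex.I * (n : ℂ)) = n * (2 * π * Complex.I) by ring]
    exact Complex.exp_int_mul_two_pi_mul_I n
  rw [e2, Complex.ofReal_zero, mul_zero, Complex.exp_zero, sub_self, zero_div]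

theorem mFourier_pt (n : ι → ℤ) (u : ι → ℝ) :
    UnitAddTorus.mFourier n (pt u) = ∏ i, Complex.exp (2 * π * Complex.I * ((n i * u i : ℝ) : ℂ)) := by
  unfold UnitAddTorus.mFourier pt
  rw [ContinuousMap.coe_mk]
  simp only [fourier_coe_apply]
  refine Finset.prod_congr rfl fun i _ => ?_
  congr 1
  push_cast
  ring

theorem integral_mFourier {n : ι → ℤ} (hn : n ≠ 0) : ∫ u, UnitAddTorus.mFourier n (pt u) ∂(cube ι) = 0 := by
  obtain ⟨i, hi⟩ : ∃ i, n i ≠ 0 := by
    by_contra h
    push Not at h
    exact hn (funext h)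
  have e1 : (fun u : ι → ℝ => UnitAddTorus.mFourier n (pt u)) =
      fun u => ∏ i, (fun (v : ℝ) => Complex.exp (2 * π * Complex.I * ((n i * v : ℝ) : ℂ))) (u i) := funext fun u => mFourier_pt n u
  rw [e1]
  unfold cube
  rw [integral_fintype_prod_eq_prod (𝕜 := ℂ) (f := fun i (v : ℝ) => Complex.exp (2 * π * Complex.I * ((n i * v : ℝ) : ℂ)))]
  exact Finset.prod_eq_zero (Finset.mem_univ i) (integral_exp_int hi)

theorem integrable_pt (F : C(UnitAddTorus ι, ℂ)) : Integrable (fun u => F (pt u)) (cube ι) := by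
  refine Integrable.mono' (integrable_const ‖F‖) (F.continuous.comp pt_cont).aestronglyMeasurable ?_
  exact Eventually.of_forall fun u => F.norm_coe_le_norm _

/-- Kronecker-Weyl -/
theorem mean_weyl {h : ι → ℝ} (hh : LinearIndependent ℚ h) (F : C(UnitAddTorus ι, ℂ)) :
    Tendsto (meanC fun R => F (line h R)) atTop (𝓝 (∫ u, F (pt u) ∂(cube ι))) := by
  have hcl : F ∈ closure ((Submodule.span ℂ (range (UnitAddTorus.mFourier (d := ι))) : Submodule ℂ C(UnitAddTorus ι, ℂ)) : Set C(UnitAddTorus ι, ℂ)) := by
    have h1 := UnitAddTorus.span_mFourier_closure_eq_top (d := ι)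
    rw [← Submodule.topologicalClosure_coe, h1]
    trivial
  have hspan : ∀ P ∈ (Submodule.span ℂ (range (UnitAddTorus.mFourier (d := ι))) : Submodule ℂ C(UnitAddTorus ι, ℂ)),
      Tendsto (meanC fun R => P (line h R)) atTop (𝓝 (∫ u, P (pt u) ∂(cube ι))) := by
    intro P hP
    induction hP using Submodule.span_induction with
    | mem x hx =>
      obtain ⟨n, rfl⟩ := hx
      by_cases hn : n = 0
      · subst hn
        have e1 : (fun R => UnitAddTorus.mFourier (0 : ι → ℤ) (line h R)) = fun _ => 1 := by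
          funext R
          rw [UnitAddTorus.mFourier_zero]
          rfl
        have e2 : (fun u : ι → ℝ => UnitAddTorus.mFourier (0 : ι → ℤ) (pt u)) = fun _ => 1 := by
          funext R
          rw [UnitAddTorus.mFourier_zero]
          rfl
        rw [e1, e2, integral_const, probReal_univ, one_smul]
        exact mean_const 1
      · rw [integral_mFourier hn]
        have h1 : (∑ i, (n i : ℝ) * h i) ≠ 0 := by
          intro h0
          rw [Fintype.linearIndependent_iff] at hh
          have h2 := hh (fun i => (n i : ℚ)) (by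
            rw [← h0]
            refine Finset.sum_congr rfl fun i _ => ?_
            rw [Rat.smul_def]
            push_cast
            rfl)
          exact hn (funext fun i => by exact_mod_cast h2 i)
        refine (mean_exp_zero h1).congr fun X => ?_
        congr 1
        funext R
        rw [mFourier_line]
    | zero =>
      have e1 : (meanC fun R => (0 : C(UnitAddTorus ι, ℂ)) (line h R)) = fun _ => 0 := by
        funext X
        unfold meanC
        simp
      have e2 : ∫ u, (0 : C(UnitAddTorus ι, ℂ)) (pt u) ∂(cube ι) = 0 := by simp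
      rw [e1, e2]
      exact tendsto_const_nhds
    | add x y _ _ hx hy =>
      have e2 : ∫ u, (x + y) (pt u) ∂(cube ι) = ∫ u, x (pt u) ∂(cube ι) + ∫ u, y (pt u) ∂(cube ι) := by
        rw [← integral_add (integrable_pt x) (integrable_pt y)]
        rfl
      rw [e2]
      refine (hx.add hy).congr fun X => ?_
      exact (meanC_add (F := fun R => x (line h R)) (G := fun R => y (line h R)) (x.continuous.comp (line_cont h))
        (y.continuous.comp (line_cont h)) X).symm
    | smul a x _ hx =>
      have e2 : ∫ u, (a • x) (pt u) ∂(cube ι) = a * ∫ u, x (pt u) ∂(cube ι) := by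
        rw [← integral_const_mul]
        rfl
      rw [e2]
      refine (hx.const_mul a).congr fun X => ?_
      rw [← meanC_mul]
      rfl
  rw [Metric.tendsto_nhds]
  intro ε hε
  obtain ⟨P, hP, hd⟩ := Metric.mem_closure_iff.1 hcl (ε / 3) (by positivity)
  have h1 := (Metric.tendsto_nhds.1 (hspan P hP)) (ε / 3) (by positivity)
  have h3 : dist (∫ u, P (pt u) ∂(cube ι)) (∫ u, F (pt u) ∂(cube ι)) ≤ ε / 3 := by
    rw [dist_eq_norm, ← integral_sub (integrable_pt P) (integrable_pt F)]
    have h4 := norm_integral_le_of_norm_le_const (μ := cube ι) (f := fun u => P (pt u) - F (pt u)) (C := ε / 3)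
      (Eventually.of_forall fun u => by
        rw [← dist_eq_norm, dist_comm]
        exact (ContinuousMap.dist_apply_le_dist _).trans hd.le)
    rw [probReal_univ, mul_one] at h4
    exact h4
  filter_upwards [h1, eventually_ge_atTop (1 : ℝ)] with X hX hX1
  have h2 : dist (meanC (fun R => F (line h R)) X) (meanC (fun R => P (line h R)) X) ≤ ε / 3 := by
    refine meanC_dist (F.continuous.comp (line_cont h)) (P.continuous.comp (line_cont h)) (fun R => ?_) hX1
    rw [← dist_eq_norm]
    exact (ContinuousMap.dist_apply_le_dist _).trans hd.le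
  have h4 := dist_triangle4 (meanC (fun R => F (line h R)) X) (meanC (fun R => P (line h R)) X)
    (∫ u, P (pt u) ∂(cube ι)) (∫ u, F (pt u) ∂(cube ι))
  linarith

/-- Kronecker-Weyl, the real form -/
theorem mean_weyl_real {h : ι → ℝ} (hh : LinearIndependent ℚ h) {F : UnitAddTorus ι → ℝ} (hF : Continuous F) :
    Tendsto (fun X : ℝ => X⁻¹ * ∫ R in Icc X (2 * X), F (line h R)) atTop (𝓝 (∫ u, F (pt u) ∂(cube ι))) := by
  have h1 := mean_weyl hh ⟨fun y => (F y : ℂ), Complex.continuous_ofReal.comp hF⟩
  have h2 := (Complex.continuous_re.tendsto _).comp h1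
  have e1 : (∫ u, (⟨fun y => (F y : ℂ), Complex.continuous_ofReal.comp hF⟩ : C(UnitAddTorus ι, ℂ)) (pt u) ∂(cube ι)).re =
      ∫ u, F (pt u) ∂(cube ι) := by
    change (∫ u, (F (pt u) : ℂ) ∂(cube ι)).re = _
    rw [integral_complex_ofReal, Complex.ofReal_re]
  rw [e1] at h2
  refine h2.congr fun X => ?_
  change (meanC (fun R => (F (line h R) : ℂ)) X).re = _
  unfold meanC
  rw [integral_complex_ofReal, ← Complex.ofReal_mul, Complex.ofReal_re]

end Pool.Agent.Helper73.XL
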